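import Pool.Agent.H39.QD.Defs
import Pool.Agent.H39.UI.Defs
import Pool.Agent.H39.UN.Rho
import Pool.Agent.H39.HG.AsyP

/-!
P186 (MP_bcc40c_pr, Q2): the final forms of the three main inputs (helper40, helper91). The assembly (helper39) uses exactly
these statements (and `UI39.iso`).

`zt f α x r` : number of descending darts of level `r` (labels = distance from the vertex of `x`);
`lt f α x r` : number of all darts of level `r`.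
-/

set_option autoImplicit false

namespace QD39

open Equiv HG39 Filter Topology

variable {D : Type} [Fintype D] [DecidableEq D]

/-- number of descending darts of level `r` -/
noncomputable def zt (f α : Perm D) (x : D) (r : ℕ) : ℕ :=
  (Finset.univ.filter fun d => dst f α x d = r ∧ dst f α x (f d) + 1 = r).card

/-- number of darts of level `r` -/
noncomputable def lt (f α : Perm D) (x : D) (r : ℕ) : ℕ :=
  (Finset.univ.filter fun d => dst f α x d = r).card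

/-- (L) balls of radius at most `(1/2 - ε) D log n` are planar -/
def StL : Prop := ∀ (h : ℝ), 0 < h → h < 1 / 4 → ∀ v : ℕ → ℕ,
  Tendsto (fun n => (v n : ℝ) / n) atTop (𝓝 (6 * UN39.dl h)) → (∀ᶠ n in atTop, v n % 2 = n % 2) →
  ∀ ε : ℝ, 0 < ε → ε < 1 / 2 → ∃ η : ℝ, 0 < η ∧ ∃ n0 : ℕ, ∀ n, n0 ≤ n →
  ∀ f : Perm (Fin (6 * n)), TF f →
    (({q : Perm (Fin (6 * n)) × Fin (6 * n) | q.1 ∈ TS f (v n) ∧ rep f q.1 q.2 = q.2 ∧
      ∃ r : ℕ, 1 ≤ r ∧ (r : ℝ) ≤ (1 / 2 - ε) * DD h * Real.log n ∧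
        ¬ Plan f q.1 (ball f q.1 q.2 r)}.ncard : ℕ) : ℝ) ≤
      (n : ℝ) ^ (1 - η) * (TS f (v n)).ncard

/-- (G) sharp growth: at the radius `(1/2 - ε) D log n` there are at least `n^(1/2 - 2 ε)` darts -/
def StG : Prop := ∀ (h : ℝ), 0 < h → h < 1 / 4 → ∀ v : ℕ → ℕ,
  Tendsto (fun n => (v n : ℝ) / n) atTop (𝓝 (6 * UN39.dl h)) → (∀ᶠ n in atTop, v n % 2 = n % 2) →
  ∀ ε : ℝ, 0 < ε → ε < 1 / 4 → ∃ η : ℝ, 0 < η ∧ ∃ n0 : ℕ, ∀ n, n0 ≤ n →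
  ∀ f : Perm (Fin (6 * n)), TF f → ∀ r : ℕ, r = ⌊(1 / 2 - ε) * DD h * Real.log n⌋₊ →
    (({q : Perm (Fin (6 * n)) × Fin (6 * n) | q.1 ∈ TS f (v n) ∧ rep f q.1 q.2 = q.2 ∧
      (lt f q.1 q.2 r : ℝ) ≤ (n : ℝ) ^ (1 / 2 - 2 * ε)}.ncard : ℕ) : ℝ) ≤
      (n : ℝ) ^ (1 - η) * (TS f (v n)).ncard

/-- (U) a ball with many descending darts at its last level is not planar -/
def StU : Prop := ∀ (ω1 ω2 B ε : ℝ), 0 < ω1 → ω2 < 1 → 0 < B → 0 < ε → ∃ η : ℝ, 0 < η ∧ ∃ n0 : ℕ,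
  ∀ n v : ℕ, n0 ≤ n → ω1 * n ≤ v → (v : ℝ) ≤ ω2 * n → v % 2 = n % 2 →
  ∀ f : Perm (Fin (6 * n)), TF f → ∀ r : ℕ, 1 ≤ r → (r : ℝ) ≤ B * Real.log n →
    (({q : Perm (Fin (6 * n)) × Fin (6 * n) | q.1 ∈ TS f v ∧ rep f q.1 q.2 = q.2 ∧
      Plan f q.1 (ball f q.1 q.2 (r + 1)) ∧ (n : ℝ) ^ (1 / 2 + ε) ≤ (zt f q.1 q.2 r : ℝ)}.ncard : ℕ) : ℝ) ≤
      (n : ℝ) ^ (1 - η) * (TS f v).ncard

end QD39
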