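import Pool.Agent.H39.HG.Defs

/-!
# MP_bcc40c_pr, Q2: the planarity radius (helper39, helper40)

Common definitions, for a triangulation `(f, α)` of HG (`f` = faces, `α` = edges, vertices = cycles of
`f * α`).

`ball f α x r`: the darts of the faces which are incident to a vertex at distance at most `r - 1` from
the vertex of `x`.

The surface `B` of a set `F` of darts (closed under `f`): the triangles of `F`, two sides `d`, `α d`
are glued iff both darts are in `F`.  The map `stp` turns around the vertices of `B` and walks along
its boundary: its cycles in `F` are the interior vertices and the boundary components of `B`; `vb` is their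
number.  If `B` is connected then `B` with its boundary components capped by discs has
`vb - #{glued pairs} + #F / 3 = 2 - 2 * genus`; `Plan` says that the genus is zero
(multiplied by 6).
-/

set_option autoImplicit false

namespace QD39

open Equiv HG39

variable {D : Type} [Fintype D] [DecidableEq D]

/-- the darts of the faces incident to a vertex at distance at most `r - 1` from the vertex of `x` -/
noncomputable def ball (f α : Perm D) (x : D) (r : ℕ) : Finset D :=
  Finset.univ.filter fun d => dst f α x d < r ∨ dst f α x (f d) < r ∨ dst f α x (f (f d)) < r

/-- one step around a vertex or along the boundary of the surface glued from the faces in `F` -/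
def stp (f α : Perm D) (F : Finset D) (d : D) : D := f (if d ∈ F ∧ α d ∈ F then α d else d)

/-- number of interior vertices plus number of boundary components of the surface `F` -/
noncomputable def vb (f α : Perm D) (F : Finset D) : ℕ :=
  Nat.card (Quot fun a b : {d // d ∈ F} => (b : D) = stp f α F a)

/-- the (connected) surface glued from the faces in `F` has genus zero -/
def Plan (f α : Perm D) (F : Finset D) : Prop :=
  6 * vb f α F + 2 * F.card = 3 * (F.filter fun d => α d ∈ F).card + 12

/-- the planarity radius of the vertex of `x` -/
noncomputable def rplan (f α : Perm D) (x : D) : ℕ := sSup {r | 1 ≤ r ∧ Plan f α (ball f α x r)}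

end QD39
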